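import Mathlib

set_option autoImplicit false

namespace Pool.Agent.H.MP_1f55c7_lc

/-- Formulas of intuitionistic modal logic. -/
inductive Fm
  | var (n : ℕ) | bot | and (a b : Fm) | or (a b : Fm) | imp (a b : Fm) | box (a : Fm) | dia (a : Fm)

namespace Fm

/-- Uniform substitution. -/
def sub (s : ℕ → Fm) : Fm → Fm
  | var n => s n
  | bot => bot
  | and a b => and (sub s a) (sub s b)
  | or a b => or (sub s a) (sub s b)
  | imp a b => imp (sub s a) (sub s b)
  | box a => box (sub s a)
  | dia a => dia (sub s a)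

/-- Diamond-free formulas. -/
def DF : Fm → Prop
  | var _ => True
  | bot => True
  | and a b => DF a ∧ DF b
  | or a b => DF a ∧ DF b
  | imp a b => DF a ∧ DF b
  | box a => DF a
  | dia _ => False

def p : Fm := var 0
def q : Fm := var 1
def r : Fm := var 2

end Fm

open Fm

/-- Hilbert postulates of intuitionistic logic, and K for the box. -/
def base : Set Fm :=
  {p.imp (q.imp p), (p.imp (q.imp r)).imp ((p.imp q).imp (p.imp r)), (p.and q).imp p,
    (p.and q).imp q, p.imp (q.imp (p.and q)), p.imp (p.or q), q.imp (p.or q),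
    (p.imp r).imp ((q.imp r).imp ((p.or q).imp r)), bot.imp p,
    (p.imp q).box.imp (p.box.imp q.box)}

/-- Theorems of the box logic extended by the postulates `A`. -/
inductive Prov (A : Set Fm) : Fm → Prop
  | ax {a : Fm} : a ∈ base ∪ A → Prov A a
  | mp {a b : Fm} : Prov A (a.imp b) → Prov A a → Prov A b
  | nec {a : Fm} : Prov A a → Prov A a.box
  | us (s : ℕ → Fm) {a : Fm} : Prov A a → Prov A (sub s a)

def L1 : Set Fm :=
  {(p.imp q).box.imp (p.dia.imp q.dia), bot.dia.imp bot,
    (p.or q).box.imp ((p.dia.imp q.box).imp q.box)}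

def L2 : Set Fm := insert ((p.or q).dia.imp (p.dia.or q.dia)) L1

/-- The diamond-free fragment has a finite basis. -/
def FinAx (L : Set Fm) : Prop :=
  ∃ X : Set Fm, X.Finite ∧ (∀ a ∈ X, DF a) ∧ ∀ a, DF a → (Prov L a ↔ Prov X a)

end Pool.Agent.H.MP_1f55c7_lc
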