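import Pool.Agent.H.MP_1f55c7_lc.A

set_option autoImplicit false

namespace Pool.Agent.H.MP_1f55c7_lc

open Fm

def s3 (a b c : Fm) : ℕ → Fm
  | 0 => a
  | 1 => b
  | _ => c

variable {A : Set Fm}

lemma ins {x : Fm} (h : x ∈ base ∪ A) (a b c : Fm) : Prov A (sub (s3 a b c) x) := .us _ (.ax h)

lemma pk (a b : Fm) : Prov A (a.imp (b.imp a)) :=
  ins (x := p.imp (q.imp p)) (by simp [base]) a b a
lemma ps (a b c : Fm) : Prov A ((a.imp (b.imp c)).imp ((a.imp b).imp (a.imp c))) :=
  ins (x := (p.imp (q.imp r)).imp ((p.imp q).imp (p.imp r))) (by simp [base]) a b c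
lemma po1 (a b : Fm) : Prov A (a.imp (a.or b)) :=
  ins (x := p.imp (p.or q)) (by simp [base]) a b a
lemma po2 (a b : Fm) : Prov A (b.imp (a.or b)) :=
  ins (x := q.imp (p.or q)) (by simp [base]) a b a
lemma poe (a b c : Fm) : Prov A ((a.imp c).imp ((b.imp c).imp ((a.or b).imp c))) :=
  ins (x := (p.imp r).imp ((q.imp r).imp ((p.or q).imp r))) (by simp [base]) a b c
lemma pbk (a b : Fm) : Prov A ((a.imp b).box.imp (a.box.imp b.box)) :=
  ins (x := (p.imp q).box.imp (p.box.imp q.box)) (by simp [base]) a b a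

lemma pid (a : Fm) : Prov A (a.imp a) :=
  ((ps a (a.imp a) a).mp (pk _ _)).mp (pk a a)

inductive D (A : Set Fm) (G : List Fm) : Fm → Prop
  | hyp {a : Fm} : a ∈ G → D A G a
  | thm {a : Fm} : Prov A a → D A G a
  | mp {a b : Fm} : D A G (a.imp b) → D A G a → D A G b

lemma D.ded {G : List Fm} {a b : Fm} (h : D A (a :: G) b) : D A G (a.imp b) := by
  induction h with
  | hyp m =>
    rcases List.mem_cons.1 m with rfl | m
    · exact .thm (pid _)
    · exact .mp (.thm (pk _ _)) (.hyp m)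
  | thm m => exact .mp (.thm (pk _ _)) (.thm m)
  | mp _ _ i j => exact .mp (.mp (.thm (ps _ _ _)) i) j

lemma D.fin {a : Fm} (h : D A [] a) : Prov A a := by
  induction h with
  | hyp m => simp at m
  | thm m => exact m
  | mp _ _ i j => exact i.mp j

lemma h0 {G : List Fm} {a : Fm} : D A (a :: G) a := .hyp (by simp)
lemma h1 {G : List Fm} {a b : Fm} : D A (b :: a :: G) a := .hyp (by simp)
lemma h2 {G : List Fm} {a b c : Fm} : D A (c :: b :: a :: G) a := .hyp (by simp)

lemma Prov.mono {B : Set Fm} (h : ∀ a ∈ A, Prov B a) {a : Fm} (k : Prov A a) : Prov B a := by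
  induction k with
  | ax m => exact m.elim (fun m => .ax (.inl m)) (h _)
  | mp _ _ i j => exact i.mp j
  | nec _ i => exact i.nec
  | us s _ i => exact i.us s

abbrev neg (a : Fm) : Fm := a.imp bot

lemma kd (a b : Fm) : Prov L1 ((a.imp b).box.imp (a.dia.imp b.dia)) :=
  ins (x := (p.imp q).box.imp (p.dia.imp q.dia)) (by simp [L1]) a b a
lemma nd : Prov L1 (bot.dia.imp bot) := .ax (by simp [L1])
lemma wcd (a b : Fm) : Prov L1 ((a.or b).box.imp ((a.dia.imp b.box).imp b.box)) :=
  ins (x := (p.or q).box.imp ((p.dia.imp q.box).imp q.box)) (by simp [L1]) a b a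
lemma cd (a b : Fm) : Prov L2 ((a.or b).dia.imp (a.dia.or b.dia)) :=
  ins (x := (p.or q).dia.imp (p.dia.or q.dia)) (by simp [L2]) a b a
lemma l12 {a : Fm} (h : Prov L1 a) : Prov L2 a := h.mono fun _ m => .ax (.inr (.inr m))

lemma dn (a : Fm) : Prov L1 (a.dia.imp (neg (neg a).box)) :=
  D.fin <| .ded <| .ded <| .mp (.thm nd) (.mp (.mp (.thm (kd a bot)) h0) h1)

lemma wc {B : Set Fm} (h : ∀ a, Prov L1 a → Prov B a) {a b c : Fm} (k : Prov B (a.dia.imp c)) :
    Prov B ((a.or b).box.imp ((c.imp b.box).imp b.box)) :=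
  D.fin <| .ded <| .ded <| .mp (.mp (.thm (h _ (wcd a b))) h1)
    (.ded <| .mp h1 (.mp (.thm k) h0))

def chi : Fm := (p.or q).box.imp (((neg (neg p).box).imp q.box).imp q.box)

def tr : Fm → Fm
  | .var n => .var n
  | .bot => .bot
  | .and a b => .and (tr a) (tr b)
  | .or a b => .or (tr a) (tr b)
  | .imp a b => .imp (tr a) (tr b)
  | .box a => .box (tr a)
  | .dia a => neg (neg (tr a)).box

lemma tr_sub (s : ℕ → Fm) (a : Fm) : tr (sub s a) = sub (fun n => tr (s n)) (tr a) := by
  induction a <;> simp_all [tr, sub]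

lemma tr_df {a : Fm} (h : DF a) : tr a = a := by
  induction a <;> simp_all [tr, DF]

lemma base_df {a : Fm} (h : a ∈ base) : DF a := by
  simp only [base, Set.mem_insert_iff, Set.mem_singleton_iff] at h
  rcases h with rfl | rfl | rfl | rfl | rfl | rfl | rfl | rfl | rfl | rfl <;> simp [DF, p, q, r]

lemma tr_prov {a : Fm} (h : Prov L1 a) : Prov {chi} (tr a) := by
  induction h with
  | ax m =>
    rcases m with m | m
    · rw [tr_df (base_df m)]; exact .ax (.inl m)
    · simp only [L1, Set.mem_insert_iff, Set.mem_singleton_iff] at m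
      rcases m with rfl | rfl | rfl
      · have c : Prov {chi} ((p.imp q).imp ((neg q).imp (neg p))) :=
          D.fin <| .ded <| .ded <| .ded <| .mp h1 (.mp h2 h0)
        exact D.fin <| .ded <| .ded <| .ded <| .mp h1
          (.mp (.mp (.thm (pbk _ _)) (.mp (.mp (.thm (pbk _ _)) (.thm c.nec)) h2)) h0)
      · exact D.fin <| .ded <| .mp h0 (.thm (pid bot).nec)
      · exact .ax (.inr rfl)
  | mp _ _ i j => exact i.mp j
  | nec _ i => exact i.nec
  | us s _ i => rw [tr_sub]; exact i.us _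

theorem fin1 : FinAx L1 :=
  ⟨{chi}, Set.finite_singleton _, by simp [chi, DF, p, q], fun a h =>
    ⟨fun k => tr_df h ▸ tr_prov k, Prov.mono fun b m => m ▸ wc (fun _ => id) (dn p)⟩⟩

def v (c : List Bool) : Fm := var (Encodable.encode c + 1)

def B : ℕ → List Bool → Fm
  | 0, c => neg (neg (v c)).box
  | k + 1, c => ((v c).imp ((v (true :: c)).or (v (false :: c)))).box.imp
      ((B k (true :: c)).or (B k (false :: c)))

lemma B_df (k : ℕ) (c : List Bool) : DF (B k c) := by
  induction k generalizing c <;> simp_all [B, DF, v]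

lemma B_prov (k : ℕ) (c : List Bool) : Prov L2 ((v c).dia.imp (B k c)) := by
  induction k generalizing c with
  | zero => exact l12 (dn _)
  | succ k ih =>
    exact D.fin <| .ded <| .ded <| .mp (.mp (.mp (.thm (poe _ _ _))
      (.ded <| .mp (.thm (po1 _ _)) (.mp (.thm (ih _)) h0)))
      (.ded <| .mp (.thm (po2 _ _)) (.mp (.thm (ih _)) h0)))
      (.mp (.thm (cd _ _)) (.mp (.mp (.thm (l12 (kd _ _))) h0) h1))

def th (N : ℕ) : Fm := ((v []).or p).box.imp (((B N []).imp p.box).imp p.box)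

lemma th_df (N : ℕ) : DF (th N) := by simp [th, DF, v, p, B_df]

lemma th_prov (N : ℕ) : Prov L2 (th N) := wc (fun _ => l12) (B_prov N [])

end Pool.Agent.H.MP_1f55c7_lc
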