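import Pool.Agent.H.MP_1f55c7_lc.B

set_option autoImplicit false

namespace Pool.Agent.H.MP_1f55c7_lc

open Fm Filter

structure Fr (W : Type) where
  le : W → W → Prop
  R : W → W → Prop
  S : W → W → Prop
  rf : ∀ x, le x x
  tr : ∀ {x y z}, le x y → le y z → le x z

variable {W : Type}

def sat (F : Fr W) (V : ℕ → W → Prop) : Fm → W → Prop
  | .var n, w => ∀ u, F.le w u → V n u
  | .bot, _ => False
  | .and a b, w => sat F V a w ∧ sat F V b w
  | .or a b, w => sat F V a w ∨ sat F V b w
  | .imp a b, w => ∀ u, F.le w u → sat F V a u → sat F V b u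
  | .box a, w => ∀ u, F.le w u → ∀ z, F.R u z → sat F V a z
  | .dia a, w => ∀ u, F.le w u → ∃ z, F.S u z ∧ sat F V a z

variable {F : Fr W} {V : ℕ → W → Prop}

lemma pers {a : Fm} {x y : W} (l : F.le x y) (h : sat F V a x) : sat F V a y := by
  induction a with
  | var n => exact fun u k => h u (F.tr l k)
  | bot => exact h
  | and a b i j => exact ⟨i h.1, j h.2⟩
  | or a b i j => exact h.imp i j
  | imp a b => exact fun u k => h u (F.tr l k)
  | box a => exact fun u k => h u (F.tr l k)
  | dia a => exact fun u k => h u (F.tr l k)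

lemma sat_sub (s : ℕ → Fm) (a : Fm) (w : W) :
    sat F V (sub s a) w ↔ sat F (fun n => sat F V (s n)) a w := by
  induction a generalizing w with
  | var n => exact ⟨fun h u l => pers l h, fun h => h w (F.rf w)⟩
  | _ => simp_all [sub, sat]

def valid (F : Fr W) (a : Fm) : Prop := ∀ V w, sat F V a w

lemma base_valid {a : Fm} (h : a ∈ base) : valid F a := by
  simp only [base, Set.mem_insert_iff, Set.mem_singleton_iff] at h
  intro V w
  rcases h with rfl | rfl | rfl | rfl | rfl | rfl | rfl | rfl | rfl | rfl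
  · exact fun u _ a t l _ => pers l a
  · exact fun u _ a t l b s m c => a s (F.tr l m) c s (F.rf s) (b s m c)
  · exact fun u _ a => a.1
  · exact fun u _ a => a.2
  · exact fun u _ a t l b => ⟨pers l a, b⟩
  · exact fun u _ a => .inl a
  · exact fun u _ a => .inr a
  · exact fun u _ a t l b s m c => c.elim (a s (F.tr l m)) (b s m)
  · exact fun u _ a => a.elim
  · exact fun u _ a t l b s m z c => a s (F.tr l m) z c z (F.rf z) (b s m z c)

lemma sound {A : Set Fm} (h : ∀ a ∈ A, valid F a) {a : Fm} (k : Prov A a) : valid F a := by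
  induction k with
  | ax m => exact m.elim base_valid (h _)
  | mp _ _ i j => exact fun V w => i V w w (F.rf w) (j V w)
  | nec _ i => exact fun V w u _ z _ => i V z
  | us s _ i => exact fun V w => (sat_sub s _ w).2 (i _ w)

lemma l1_valid (s : ∀ x z, F.S x z → F.R x z)
    (h : ∀ x z, F.R x z → ∃ y, F.le x y ∧ F.R y z ∧ ∀ u, F.le y u → ∃ t, F.le z t ∧ F.S u t) :
    ∀ a ∈ L1, valid F a := by
  intro a m V w
  simp only [L1, Set.mem_insert_iff, Set.mem_singleton_iff] at m
  rcases m with rfl | rfl | rfl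
  · intro u _ a t l b y m
    obtain ⟨z, c, d⟩ := b y m
    exact ⟨z, c, a y (F.tr l m) z (s _ _ c) z (F.rf z) d⟩
  · intro u _ a
    obtain ⟨z, -, d⟩ := a u (F.rf u)
    exact d
  · intro u _ a t l b y m z c
    refine (a y (F.tr l m) z c).elim (fun d => ?_) id
    obtain ⟨x, e, f, g⟩ := h y z c
    refine b x (F.tr m e) (fun k n => ?_) x (F.rf x) z f
    obtain ⟨j, o, i⟩ := g k n
    exact ⟨j, i, pers o d⟩

lemma l2_valid (s : ∀ x z, F.S x z → F.R x z) (h : ∀ x z, F.R x z → ∃ y, F.le x y ∧ F.S y z)
    (g : ∀ y z, F.S y z → ∀ u, F.le y u → ∃ t, F.le z t ∧ F.S u t) : ∀ a ∈ L2, valid F a := by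
  intro a m
  rcases m with rfl | m
  · intro V w u _ a
    obtain ⟨z, c, d⟩ := a u (F.rf u)
    refine d.imp (fun d k n => ?_) (fun d k n => ?_) <;>
    · obtain ⟨j, o, i⟩ := g u z c k n
      exact ⟨j, i, pers o d⟩
  · refine l1_valid s (fun x z c => ?_) a m
    obtain ⟨y, e, f⟩ := h x z c
    exact ⟨y, e, s _ _ f, g y z f⟩

def surv (F : Fr W) : ℕ → W → W → Prop
  | 0, y, z => F.R y z
  | k + 1, y, z => F.R y z ∧ ∀ u, F.le y u → ∃ t, F.le z t ∧ surv F k u t

lemma surv.r {k : ℕ} {y z : W} (h : surv F k y z) : F.R y z := by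
  cases k with
  | zero => exact h
  | succ k => exact h.1

noncomputable abbrev U : Ultrafilter ℕ := hyperfilter ℕ

lemma los_all {T : Type} [Nonempty T] (P Q : ℕ → T → Prop) :
    (∀ u : ℕ → T, (∀ᶠ n in U, P n (u n)) → ∀ᶠ n in U, Q n (u n)) ↔
      ∀ᶠ n in U, ∀ t, P n t → Q n t := by
  refine ⟨fun h => ?_, fun h u k => (h.and k).mono fun n a => a.1 _ a.2⟩
  by_contra c
  have c := Ultrafilter.eventually_not.2 c
  have e (n : ℕ) : ∃ t, (¬ ∀ t, P n t → Q n t) → P n t ∧ ¬ Q n t := by
    by_cases k : ∀ t, P n t → Q n t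
    · exact ⟨Classical.arbitrary T, fun a => (a k).elim⟩
    · push Not at k
      obtain ⟨t, k⟩ := k
      exact ⟨t, fun _ => k⟩
  choose u e using e
  obtain ⟨n, a, b⟩ := (c.and (h u (c.mono fun n a => (e n a).1))).exists
  exact (e n a).2 b

lemma los_ex {T : Type} [Nonempty T] {P : ℕ → T → Prop} (h : ∀ᶠ n in U, ∃ t, P n t) :
    ∃ u : ℕ → T, ∀ᶠ n in U, P n (u n) := by
  have e (n : ℕ) : ∃ t, (∃ t, P n t) → P n t := by
    by_cases k : ∃ t, P n t
    · obtain ⟨t, k⟩ := k
      exact ⟨t, fun _ => k⟩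
    · exact ⟨Classical.arbitrary T, fun a => (k a).elim⟩
  choose u e using e
  exact ⟨u, h.mono fun n a => e n a⟩

def up (G : ℕ → Fr W) : Fr (ℕ → W) where
  le x y := ∀ᶠ n in U, (G n).le (x n) (y n)
  R x y := ∀ᶠ n in U, (G n).R (x n) (y n)
  S x y := ∃ k : ℕ → ℕ, Tendsto k U atTop ∧ ∀ᶠ n in U, surv (G n) (k n) (x n) (y n)
  rf x := .of_forall fun n => (G n).rf _
  tr a b := (a.and b).mono fun n c => (G n).tr c.1 c.2

lemma los [Nonempty W] (G : ℕ → Fr W) (V : ℕ → ℕ → W → Prop) {a : Fm} (h : DF a) (x : ℕ → W) :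
    sat (up G) (fun i x => ∀ᶠ n in U, V n i (x n)) a x ↔ ∀ᶠ n in U, sat (G n) (V n) a (x n) := by
  induction a generalizing x with
  | var i => exact los_all (fun n t => (G n).le (x n) t) (fun n t => V n i t)
  | bot => simp [sat, U.neBot.ne]
  | and a b i j => simp only [sat, i h.1, j h.2, eventually_and]
  | or a b i j => simp only [sat, i h.1, j h.2, Ultrafilter.eventually_or]
  | imp a b i j =>
    have := los_all (fun n t => (G n).le (x n) t ∧ sat (G n) (V n) a t)
      (fun n t => sat (G n) (V n) b t)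
    simp only [eventually_and, and_imp] at this
    simp only [sat, i h.1, j h.2]
    exact this
  | box a i =>
    have := los_all (fun n (t : W × W) => (G n).le (x n) t.1 ∧ (G n).R t.1 t.2)
      (fun n t => sat (G n) (V n) a t.2)
    simp only [eventually_and, and_imp, Prod.forall] at this
    simp only [sat, i h]
    constructor
    · intro k
      exact (this.1 fun u l m => k (fun n => (u n).1) l (fun n => (u n).2) m).mono
        fun n e u l z m => e u z l m
    · intro k u l z m
      exact this.2 (k.mono fun n e u z l m => e u l z m) (fun n => (u n, z n)) l m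
  | dia a => exact h.elim

lemma up_valid [Nonempty W] (G : ℕ → Fr W)
    (h : ∀ n x z, (G n).R x z → ∃ y, (G n).le x y ∧ surv (G n) n y z) :
    ∀ a ∈ L2, valid (up G) a := by
  refine l2_valid (fun x z ⟨k, _, c⟩ => c.mono fun n e => e.r) (fun x z c => ?_)
    fun y z ⟨k, e, c⟩ u l => ?_
  · obtain ⟨y, e⟩ := los_ex (P := fun n y => (G n).le (x n) y ∧ surv (G n) n y (z n))
      (Eventually.mono c fun n e => h n _ _ e)
    exact ⟨y, e.mono fun n e => e.1, id, tendsto_id.mono_left
      (Nat.hyperfilter_le_atTop), e.mono fun n e => e.2⟩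
  · obtain ⟨t, f⟩ := los_ex (P := fun n t => (G n).le (z n) t ∧ surv (G n) (k n - 1) (u n) t)
      (((e.eventually_ge_atTop 1).and (c.and l)).mono fun n ⟨a, b, d⟩ => by
        obtain ⟨m, hm⟩ : ∃ m, k n = m + 1 := ⟨k n - 1, by omega⟩
        rw [hm] at b ⊢
        exact b.2 _ d)
    exact ⟨t, f.mono fun n e => e.1, fun n => k n - 1, (tendsto_sub_atTop_nat 1).comp e,
      f.mono fun n e => e.2⟩

lemma up_ev [Nonempty W] (G : ℕ → Fr W) {a : Fm} (d : DF a) (h : valid (up G) a) :
    ∀ᶠ n in U, valid (G n) a := by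
  by_contra c
  have c := Ultrafilter.eventually_not.2 c
  obtain ⟨u, e⟩ := los_ex (P := fun n (t : (ℕ → W → Prop) × W) => ¬ sat (G n) t.1 a t.2)
    (c.mono fun n e => by simpa [valid] using e)
  obtain ⟨n, i, j⟩ := (e.and ((los G (fun n => (u n).1) d fun n => (u n).2).1 (h _ _))).exists
  exact i j

inductive Wd | rt | g (c : List Bool) (b : Bool) | z (s : List Bool)

open Wd

instance : Nonempty Wd := ⟨rt⟩

def wle : Wd → Wd → Prop
  | rt, z _ => False
  | rt, _ => True
  | g c b, g d e => (b = false ∧ c <:+ d) ∨ (c = d ∧ b = e)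
  | z s, z t => s <:+ t
  | _, _ => False

def wR (N : ℕ) : Wd → Wd → Prop
  | rt, z s => s.length ≤ N
  | g c _, z s => s.length ≤ N ∧ ¬ s <:+ c
  | _, _ => False

def G (N : ℕ) : Fr Wd where
  le := wle
  R := wR N
  S := wR N
  rf x := by cases x <;> simp [wle]
  tr {x y w} a b := by
    cases x <;> cases y <;> cases w <;> simp_all [wle]
    · rcases a with ⟨a, c⟩ | ⟨rfl, rfl⟩
      · rcases b with ⟨-, d⟩ | ⟨rfl, -⟩
        · exact .inl ⟨a, c.trans d⟩
        · exact .inl ⟨a, c⟩
      · exact b
    · exact a.trans b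

lemma dev (s c : List Bool) : ∃ b, ¬ b :: s <:+ c := by
  by_contra h
  push Not at h
  have := (List.suffix_of_suffix_length_le (h true) (h false) (by simp)).eq_of_length (by simp)
  simp at this

lemma sg (N k : ℕ) (c s : List Bool) (b : Bool) (h : ¬ s <:+ c) (l : s.length + k ≤ N) :
    surv (G N) k (g c b) (z s) := by
  induction k generalizing c s b with
  | zero => exact ⟨l, h⟩
  | succ k ih =>
    refine ⟨⟨by omega, h⟩, fun u m => ?_⟩
    cases u with
    | g d e =>
      obtain ⟨a, n⟩ := dev s d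
      exact ⟨z (a :: s), List.suffix_cons _ _, ih _ _ _ n (by simp; omega)⟩
    | _ => exact m.elim

lemma sm (N k : ℕ) (c : List Bool) (w : Wd) (h : wR N (g c true) w) :
    surv (G N) k (g c true) w := by
  induction k with
  | zero => exact h
  | succ k ih =>
    refine ⟨h, fun u m => ⟨w, (G N).rf w, ?_⟩⟩
    cases u with
    | g d e =>
      rcases m with ⟨m, -⟩ | ⟨rfl, rfl⟩
      · simp at m
      · exact ih
    | _ => exact m.elim

lemma sr (N k : ℕ) (l : k ≤ N) : surv (G N) k rt (z []) := by
  induction k with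
  | zero => exact Nat.zero_le N
  | succ k ih =>
    refine ⟨Nat.zero_le N, fun u m => ?_⟩
    cases u with
    | rt => exact ⟨_, (G N).rf _, ih (by omega)⟩
    | g d e =>
      obtain ⟨a, n⟩ := dev [] d
      exact ⟨z [a], List.nil_suffix, sg _ _ _ _ _ n (by simp; omega)⟩
    | z => exact m.elim

lemma cn (N k : ℕ) (l : k ≤ N) (x w : Wd) (h : (G N).R x w) :
    ∃ y, (G N).le x y ∧ surv (G N) k y w := by
  cases w with
  | z s =>
    cases x with
    | rt =>
      by_cases e : s = []
      · exact ⟨rt, trivial, e ▸ sr N k l⟩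
      · exact ⟨g [] true, trivial, sm N k _ _ ⟨h, by simpa using e⟩⟩
    | g c b =>
      refine ⟨g c true, ?_, sm N k _ _ h⟩
      cases b
      · exact .inl ⟨rfl, List.suffix_rfl⟩
      · exact .inr ⟨rfl, rfl⟩
    | z => exact h.elim
  | _ => cases x <;> exact h.elim

def Vw : ℕ → Wd → Prop
  | 0, z s => s ≠ []
  | i + 1, z s => ∃ c : List Bool, Encodable.encode c = i ∧ c <:+ s
  | _, _ => False

lemma sv (N : ℕ) (c s : List Bool) : sat (G N) Vw (v c) (z s) ↔ c <:+ s := by
  refine ⟨fun h => ?_, fun h u l => ?_⟩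
  · obtain ⟨d, e, f⟩ := h _ ((G N).rf _)
    exact Encodable.encode_injective e ▸ f
  · cases u with
    | z t => exact ⟨c, rfl, h.trans l⟩
    | _ => exact l.elim

lemma nB (N k : ℕ) (c : List Bool) (l : c.length + k = N) : ¬ sat (G N) Vw (B k c) (g c false) := by
  induction k generalizing c with
  | zero =>
    refine fun h => h _ ((G N).rf _) fun u m w a t n b => ?_
    cases u with
    | g d e =>
      have cd : c <:+ d := m.elim (·.2) fun m => m.1 ▸ List.suffix_rfl
      cases w with
      | z s =>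
        cases t with
        | z t =>
          exact a.2 ((List.suffix_of_suffix_length_le n ((sv N c t).1 b)
            (by have := a.1; omega)).trans cd)
        | _ => exact n.elim
      | _ => exact a.elim
    | _ => exact m.elim
  | succ k ih =>
    intro h
    refine (h _ ((G N).rf _) fun u m w a t n b => ?_).elim
      (fun e => ih (true :: c) (by simp; omega) (pers (x := g c false) (Or.inl ⟨rfl, List.suffix_cons _ _⟩) e))
      (fun e => ih (false :: c) (by simp; omega) (pers (x := g c false) (Or.inl ⟨rfl, List.suffix_cons _ _⟩) e))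
    cases u with
    | g d e =>
      have cd : c <:+ d := m.elim (·.2) fun m => m.1 ▸ List.suffix_rfl
      cases w with
      | z s =>
        cases t with
        | z t =>
          obtain ⟨j, rfl⟩ := (sv N c t).1 b
          rcases j.eq_nil_or_concat' with rfl | ⟨j, i, rfl⟩
          · exact (a.2 (List.IsSuffix.trans n cd)).elim
          · cases i
            · exact .inr ((sv N _ _).2 ⟨j, by simp⟩)
            · exact .inl ((sv N _ _).2 ⟨j, by simp⟩)
        | _ => exact n.elim
      | _ => exact a.elim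
    | _ => exact m.elim

lemma nth (N : ℕ) : ¬ valid (G N) (th N) := by
  intro h
  refine h Vw rt rt trivial (fun u _ w a => ?_) rt trivial (fun u _ b y m w a t n => ?_)
    rt trivial (z []) (Nat.zero_le N) (z []) List.suffix_rfl rfl
  · cases w with
    | z s => exact .inl ((sv N _ _).2 List.nil_suffix)
    | _ => cases u <;> exact a.elim
  · cases u with
    | rt => exact (nB N N [] (by simp) (pers (x := rt) trivial b)).elim
    | g c e =>
      cases y with
      | g d f =>
        cases w with
        | z s =>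
          cases t with
          | z t =>
            rintro rfl
            exact a.2 (List.suffix_nil.1 n ▸ List.nil_suffix)
          | _ => exact n.elim
        | _ => exact a.elim
      | _ => exact m.elim
    | z =>
      cases y with
      | z => cases w <;> exact a.elim
      | _ => exact m.elim

theorem sep : ¬ Prov L1 (th 1) := fun h => nth 1 <| sound (l1_valid (fun _ _ => id) fun x w a =>
  let ⟨y, b, c⟩ := cn 1 1 le_rfl x w a; ⟨y, b, c.1, c.2⟩) h

theorem nfin2 : ¬ FinAx L2 := by
  rintro ⟨X, f, d, h⟩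
  have : ∀ᶠ n in U, ∀ a ∈ X, valid (G n) a := (eventually_all_finite f).2 fun a m =>
    up_ev G (d a m) (sound (up_valid G fun n => cn n n le_rfl) ((h a (d a m)).2 (.ax (.inr m))))
  obtain ⟨n, e⟩ := this.exists
  exact nth n (sound e ((h _ (th_df n)).1 (th_prov n)))

end Pool.Agent.H.MP_1f55c7_lc
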